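import Pool.Agent.W186.AI.Fin

set_option autoImplicit false

/-!
# MP_ec260d_nt: algebraic independence of the zeros of shifts of the xi function

Let `xi*(s) = s (s-1) π^(-s/2) Γ(s/2) ζ(s)` and, for real `a`, `X a t = Re xi*(1/2 + a + i t)`, which is
`(xi*(1/2 + a + i t) + xi*(1/2 + a - i t)) / 2`. The positive zeros of `X 0` are the positive ordinates of the
zeros of zeta on the critical line. For all real `a > 1/2` outside a countable set the positive zeros of `X a`
are algebraically independent over the rationals, and in the same way over every countable field.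

Proof. `xi* = exp ell` on `Re s > 1`, with `Re ell' > 0`, and the positive zeros of `X a` are the solutions
`t = τ n a` of `Im ell(1/2 + a + i t) = (n + 1/2) π`, real analytic functions of `a > 1/2`. An algebraic
relation that holds for uncountably many `a` holds identically, and extends to complex `a` with large real part.
For `a = x + i Y`, `Y → ∞`, `t` is the fixed point of `w ((n + 1/2) π + S t) + O (1 / Y)` with
`w` of size `1 / log Y`, where `S` depends on the phases `p ^ (-iY)` only. By Kronecker's theorem all phases
occur, and comparing powers of `w` the relation holds for the model fixed points for all phases and all small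
`w`; by holomorphy also for phases in the closed polydisc; there the model fixed points fill an open set.
-/

namespace Pool.Agent.Results.MP_ec260d_nt.ShiftedZeros

open Complex

/-- `Re (s (s-1) π^(-s/2) Γ(s/2) ζ(s))` at `s = 1/2 + a + i t`. -/
noncomputable def X (a t : ℝ) : ℝ :=
  ((1 / 2 + (a : ℂ) + I * (t : ℂ)) * (1 / 2 + (a : ℂ) + I * (t : ℂ) - 1) *
    completedRiemannZeta (1 / 2 + (a : ℂ) + I * (t : ℂ))).re

theorem result :
    (∀ a : ℝ, 1 / 2 < a → {t : ℝ | 0 < t ∧ X a t = 0}.Infinite) ∧
    (∃ B : Set ℝ, B.Countable ∧ ∀ a : ℝ, 1 / 2 < a → a ∉ B →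
      AlgebraicIndependent ℚ (fun t : {t : ℝ // 0 < t ∧ X a t = 0} => (t : ℝ))) ∧
    ∀ (F : Type) [Field F] [Countable F] [Algebra F ℝ], ∃ B : Set ℝ, B.Countable ∧
      ∀ a : ℝ, 1 / 2 < a → a ∉ B →
        AlgebraicIndependent F (fun t : {t : ℝ // 0 < t ∧ X a t = 0} => (t : ℝ)) :=
  ⟨Pool.Agent.W186.AI.infinite_zeros, Pool.Agent.W186.AI.main ℚ, fun F _ _ _ => Pool.Agent.W186.AI.main F⟩

end Pool.Agent.Results.MP_ec260d_nt.ShiftedZeros
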